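import Pool.Agent.H92.OD.Targets

/-!
# CHI: automorphisms given by characters
-/

set_option autoImplicit false

namespace Pool.Agent.H85.OD

open MvPolynomial Filter Pool.Agent.H92.OD

section

variable {k : Type} [Field k]

/-- The map `u ^ r ↦ χ r u ^ r` on Hahn series. -/
noncomputable def tw (χ : ℚ → k) (y : HS k) : HS k :=
  { coeff := fun r => χ r * cf y r
    isPWO_support' := (HahnSeries.isPWO_support (y : HahnSeries ℚ k)).mono fun r hr h => hr (by
      show χ r * cf y r = 0
      have h' : cf y r = 0 := h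
      rw [h', mul_zero]) : HahnSeries ℚ k }

lemma cf_tw (χ : ℚ → k) (y : HS k) (r : ℚ) : cf (tw χ y) r = χ r * cf y r := rfl

lemma tw_mul (χ : ℚ → k) (hχ : ∀ r s, χ (r + s) = χ r * χ s) (x y : HS k) :
    tw χ (x * y) = tw χ x * tw χ y := by
  refine hs_ext fun r => ?_
  have hx := HahnSeries.isPWO_support (x : HahnSeries ℚ k)
  have hy := HahnSeries.isPWO_support (y : HahnSeries ℚ k)
  have sx : HahnSeries.support (tw χ x : HahnSeries ℚ k) ⊆
      HahnSeries.support (x : HahnSeries ℚ k) :=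
    fun r hr h => hr (by
      show χ r * cf x r = 0
      have h' : cf x r = 0 := h
      rw [h', mul_zero])
  have sy : HahnSeries.support (tw χ y : HahnSeries ℚ k) ⊆
      HahnSeries.support (y : HahnSeries ℚ k) :=
    fun r hr h => hr (by
      show χ r * cf y r = 0
      have h' : cf y r = 0 := h
      rw [h', mul_zero])
  have hx' := HahnSeries.isPWO_support (tw χ x : HahnSeries ℚ k)
  have e1 : cf (x * y) r = ∑ ij ∈ Finset.antidiagonal hx hy r, cf x ij.1 * cf y ij.2 :=
    HahnSeries.coeff_mul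
  have e2 : cf (tw χ x * tw χ y) r =
      ∑ ij ∈ Finset.antidiagonal hx' hy r, cf (tw χ x) ij.1 * cf (tw χ y) ij.2 :=
    HahnSeries.coeff_mul_right' hy sy
  have e3 : ∑ ij ∈ Finset.antidiagonal hx' hy r, cf (tw χ x) ij.1 * cf (tw χ y) ij.2 =
      ∑ ij ∈ Finset.antidiagonal hx hy r, cf (tw χ x) ij.1 * cf (tw χ y) ij.2 := by
    refine Finset.sum_subset ?_ ?_
    · intro ij hij
      have h := Finset.mem_antidiagonal.1 hij
      exact Finset.mem_antidiagonal.2 ⟨sx h.1, h.2.1, h.2.2⟩
    · intro ij hij hn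
      have h := Finset.mem_antidiagonal.1 hij
      have h1 : cf (tw χ x) ij.1 = 0 := by
        by_contra h0
        exact hn (Finset.mem_antidiagonal.2 ⟨h0, h.2.1, h.2.2⟩)
      rw [h1, zero_mul]
  rw [e2, e3, cf_tw, e1, Finset.mul_sum]
  refine Finset.sum_congr rfl fun ij hij => ?_
  have h : ij.1 + ij.2 = r := (Finset.mem_antidiagonal.1 hij).2.2
  rw [cf_tw, cf_tw, ← h, hχ]
  ring

/-- A character of the rational numbers. -/
lemma exists_chi [IsAlgClosed k] [CharZero k] (N : ℕ) (s : ℚ) (hN : 0 < N)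
    (hs : ¬∃ m : ℤ, s * N = m) : ∃ χ : ℚ → k, (∀ r s, χ (r + s) = χ r * χ s) ∧ χ 0 = 1 ∧
      (∀ (r : ℚ) (m : ℤ), r * N = m → χ r = 1) ∧ χ s ≠ 1 := by
  classical
  have hsurj : ∀ {n : ℤ}, n ≠ 0 → Function.Surjective fun a : Additive kˣ => n • a := by
    intro n hn x
    obtain ⟨z, hz⟩ := IsAlgClosed.exists_pow_nat_eq (Additive.toMul x : kˣ).val
      (Int.natAbs_pos.2 hn)
    have hz0 : z ≠ 0 := by
      rintro rfl
      rw [zero_pow (Int.natAbs_ne_zero.2 hn)] at hz
      exact (Additive.toMul x : kˣ).ne_zero hz.symm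
    have h1 : (Units.mk0 z hz0) ^ n.natAbs = Additive.toMul x := by
      ext
      simpa using hz
    rcases Int.natAbs_eq n with h | h
    · refine ⟨Additive.ofMul (Units.mk0 z hz0), ?_⟩
      show n • Additive.ofMul (Units.mk0 z hz0) = x
      rw [h, natCast_zsmul, ← ofMul_pow, h1]
      rfl
    · refine ⟨Additive.ofMul (Units.mk0 z hz0)⁻¹, ?_⟩
      show n • Additive.ofMul (Units.mk0 z hz0)⁻¹ = x
      rw [h, neg_smul, natCast_zsmul, ← ofMul_pow, inv_pow, h1]
      rw [ofMul_inv, neg_neg]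
      rfl
  let _ : DivisibleBy (Additive kˣ) ℤ := divisibleByOfSMulRightSurj _ _ hsurj
  set t : ℚ := s * N with ht
  have hb : t.den ≠ 0 := t.den_nz
  have hNQ : (N : ℚ) ≠ 0 := by exact_mod_cast hN.ne'
  have hbQ : (t.den : ℚ) ≠ 0 := by exact_mod_cast hb
  have _ : NeZero ((t.den : ℕ) : k) := ⟨by exact_mod_cast hb⟩
  obtain ⟨ζ, hζ⟩ := HasEnoughRootsOfUnity.exists_primitiveRoot k t.den
  set v : Additive kˣ := Additive.ofMul (hζ.isUnit hb).unit with hv
  have hζu : IsPrimitiveRoot (hζ.isUnit hb).unit t.den := hζ.isUnit_unit hb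
  have hinj : Function.Injective ((zmultiplesHom ℚ) (1 / (t.den * N) : ℚ) : ℤ →+ ℚ) := by
    intro a b hab
    simp only [zmultiplesHom_apply, zsmul_eq_mul] at hab
    have h0 : (1 / (t.den * N) : ℚ) ≠ 0 := by positivity
    exact_mod_cast mul_right_cancel₀ h0 hab
  obtain ⟨f, hf⟩ := (Module.Baer.of_divisible (Additive kˣ)).extension_property_addMonoidHom _
    hinj ((zmultiplesHom (Additive kˣ)) v)
  have hfm : ∀ m : ℤ, f (m * (1 / (t.den * N) : ℚ)) = m • v := by
    intro m
    have := DFunLike.congr_fun hf m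
    simpa [zmultiplesHom_apply, zsmul_eq_mul] using this
  refine ⟨fun r => ((Additive.toMul (f r) : kˣ) : k), ?_, ?_, ?_, ?_⟩
  · intro r s
    simp [map_add]
  · simp
  · intro r m hr
    have h1 : r = ((m * t.den : ℤ) : ℚ) * (1 / (t.den * N) : ℚ) := by
      push_cast
      field_simp
      exact hr
    show ((Additive.toMul (f r) : kˣ) : k) = 1
    rw [h1, hfm, mul_smul]
    have h2 : (t.den : ℤ) • v = 0 := by
      rw [natCast_zsmul, hv, ← ofMul_pow, hζu.pow_eq_one]
      rfl
    rw [h2, smul_zero]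
    simp
  · have h1 : s = (t.num : ℚ) * (1 / (t.den * N) : ℚ) := by
      have h2 : t = t.num / t.den := (Rat.num_div_den t).symm
      have h3 : s = t / N := by
        rw [ht]
        field_simp
      rw [h3, div_eq_mul_one_div]
      nth_rw 1 [h2]
      field_simp
    intro h
    have h' : ((Additive.toMul (f s) : kˣ) : k) = 1 := h
    rw [h1, hfm] at h'
    have h2 : (hζ.isUnit hb).unit ^ t.num = 1 := by
      ext
      have h3 : (Additive.toMul (t.num • v) : kˣ) = (hζ.isUnit hb).unit ^ t.num := by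
        rw [hv, toMul_zsmul]
        rfl
      rw [← h3]
      exact h'
    rw [hζu.zpow_eq_one_iff_dvd] at h2
    have h4 : t.den ∣ t.num.natAbs := Int.natCast_dvd.1 h2
    have h5 : t.den = 1 := Nat.eq_one_of_dvd_coprimes t.reduced h4 dvd_rfl
    exact hs ⟨t.num, by
      have h2 : t = t.num / t.den := (Rat.num_div_den t).symm
      rw [h5, Nat.cast_one, div_one] at h2
      exact h2⟩

end

theorem pf_CHI : T_CHI := by
  intro k _ _ _ N s hN hs
  obtain ⟨χ, hχ, h0, h1, h2⟩ := exists_chi (k := k) N s hN hs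
  have hsg : ∀ (r : ℚ) (c : k), χ r = 1 → tw χ (sg r c) = sg r c := by
    intro r c hr
    refine hs_ext fun t => ?_
    rw [cf_tw, cf_sg]
    split_ifs with h
    · rw [h, hr, one_mul]
    · rw [mul_zero]
  refine ⟨{ toFun := tw χ
            map_one' := by
              rw [← sg_zero_one]
              exact hsg 0 1 h0
            map_mul' := tw_mul χ hχ
            map_zero' := hs_ext fun r => by rw [cf_tw, cf_zero, mul_zero]
            map_add' := fun x y => hs_ext fun r => by
              rw [cf_tw, cf_add, cf_add, cf_tw, cf_tw, mul_add] }, ?_, ?_, ?_, ?_⟩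
  · intro c
    rw [algebraMap_HS]
    exact hsg 0 _ h0
  · refine hsg 1 1 (h1 1 N ?_)
    rw [one_mul]
    simp
  · intro y
    refine hs_ext fun r => ?_
    show cf (tw χ (DF y)) r = cf (DF (tw χ y)) r
    rw [cf_tw, cf_DF, cf_DF, cf_tw, mul_smul_comm]
  · intro y hy hr
    constructor
    · show cf (tw χ y - y) s ≠ 0
      rw [cf_sub, cf_tw]
      have h3 : χ s * cf y s - cf y s = (χ s - 1) * cf y s := by ring
      rw [h3]
      exact mul_ne_zero (sub_ne_zero.2 h2) hy
    · intro r hrs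
      show cf (tw χ y - y) r = 0
      rw [cf_sub, cf_tw]
      by_cases h4 : cf y r = 0
      · rw [h4, mul_zero, sub_zero]
      · obtain ⟨m, hm⟩ := hr r hrs h4
        rw [h1 r m hm, one_mul, sub_self]

end Pool.Agent.H85.OD
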