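import Pool.Agent.H92.OD.Targets

/-!
# EDC: the field `k(u, y, D y)` is closed under `D`
-/

set_option autoImplicit false

namespace Pool.Agent.H85.OD

open MvPolynomial Filter Pool.Agent.H92.OD

section

variable {k L : Type} [Field k] [Field L] [Algebra k L]

lemma supp_pderiv {i : Fin 3} {Q : MvPolynomial (Fin 3) k} {m : Fin 3 →₀ ℕ}
    (hm : m ∈ (pderiv i Q).support) : m + Finsupp.single i 1 ∈ Q.support := by
  rw [mem_support_iff, coeff_pderiv] at hm
  rw [mem_support_iff]
  exact left_ne_zero_of_mul hm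

lemma deg_pderiv {i : Fin 3} {Q : MvPolynomial (Fin 3) k} (h : pderiv i Q ≠ 0) :
    (pderiv i Q).totalDegree < Q.totalDegree := by
  have h1 : ∀ m ∈ (pderiv i Q).support, (m.sum fun _ e => e) + 1 ≤ Q.totalDegree := by
    intro m hm
    have h2 := le_totalDegree (supp_pderiv hm)
    rw [Finsupp.sum_add_index' (fun _ => rfl) fun _ _ _ => rfl, Finsupp.sum_single_index rfl] at h2
    exact h2
  obtain ⟨m, hm⟩ := support_nonempty.2 h
  have h3 := h1 m hm
  have h4 : (pderiv i Q).totalDegree ≤ Q.totalDegree - 1 := by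
    unfold totalDegree
    refine Finset.sup_le ?_
    intro m hm
    show (m.sum fun _ e => e) ≤ Q.totalDegree - 1
    have := h1 m hm
    omega
  omega

lemma supp_of_pderiv_zero [CharZero k] {i : Fin 3} {Q : MvPolynomial (Fin 3) k}
    (h : pderiv i Q = 0) : ∀ m ∈ Q.support, m i = 0 := by
  intro m hm
  by_contra hmi
  have h1 : m - Finsupp.single i 1 + Finsupp.single i 1 = m := by
    refine tsub_add_cancel_of_le ?_
    rw [Finsupp.single_le_iff]
    omega
  have h2 : coeff (m - Finsupp.single i 1) (pderiv i Q) = 0 := by rw [h, coeff_zero]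
  rw [coeff_pderiv, h1] at h2
  rcases mul_eq_zero.1 h2 with h3 | h3
  · exact (mem_support_iff.1 hm) h3
  · exact absurd h3 (Nat.cast_add_one_ne_zero _)

lemma chain (D : Derivation k L L) (f : Fin 3 → L) (Φ : MvPolynomial (Fin 3) k) :
    D (aeval f Φ) = ∑ i, aeval f (pderiv i Φ) * D (f i) := by
  induction Φ using MvPolynomial.induction_on with
  | C a =>
    simp [algHom_C]
  | add p q hp hq =>
    rw [map_add, map_add, hp, hq, ← Finset.sum_add_distrib]
    refine Finset.sum_congr rfl fun i _ => ?_
    rw [map_add, map_add, add_mul]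
  | mul_X p j hp =>
    rw [map_mul, aeval_X, Derivation.leibniz, hp]
    have h : ∀ i, aeval f (pderiv i (p * X j)) * D (f i) =
        f j * (aeval f (pderiv i p) * D (f i)) + if i = j then aeval f p * D (f j) else 0 := by
      intro i
      rw [pderiv_mul, map_add, map_mul, aeval_X, map_mul, pderiv_X, add_mul]
      by_cases hij : i = j
      · subst hij
        simp
        ring
      · have h1 : (Pi.single i 1 : Fin 3 → MvPolynomial (Fin 3) k) j = 0 :=
          Pi.single_eq_of_ne (Ne.symm hij) _
        rw [h1, if_neg hij]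
        simp
        ring
    rw [Finset.sum_congr rfl fun i _ => h i, Finset.sum_add_distrib, ← Finset.mul_sum,
      Finset.sum_ite_eq' Finset.univ j]
    simp [smul_eq_mul]
    ring

lemma aeval_mem (F : IntermediateField k L) (f : Fin 3 → L) (P : MvPolynomial (Fin 3) k)
    (h : ∀ m ∈ P.support, ∀ i, m i ≠ 0 → f i ∈ F) : aeval f P ∈ F := by
  rw [aeval_def, eval₂_eq']
  refine sum_mem fun m hm => mul_mem (F.algebraMap_mem _) (prod_mem fun i _ => ?_)
  by_cases hi : m i = 0
  · rw [hi, pow_zero]
    exact one_mem F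
  · exact pow_mem (h m hm i hi) _

lemma closed (D : Derivation k L L) (S : Set L) (F : IntermediateField k L)
    (hS : IntermediateField.adjoin k S ≤ F) (h : ∀ x ∈ S, D x ∈ F) :
    ∀ g ∈ IntermediateField.adjoin k S, D g ∈ F := by
  intro g hg
  have h1 : g ∈ F ∧ D g ∈ F := by
    induction hg using IntermediateField.adjoin_induction with
    | mem x hx => exact ⟨hS (IntermediateField.subset_adjoin k S hx), h x hx⟩
    | algebraMap x =>
      refine ⟨F.algebraMap_mem x, ?_⟩
      rw [D.map_algebraMap]
      exact zero_mem F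
    | add x y _ _ hx hy =>
      refine ⟨add_mem hx.1 hy.1, ?_⟩
      rw [map_add]
      exact add_mem hx.2 hy.2
    | inv x _ hx =>
      refine ⟨inv_mem hx.1, ?_⟩
      rw [Derivation.leibniz_inv]
      exact mul_mem (neg_mem (pow_mem (inv_mem hx.1) 2)) hx.2
    | mul x y _ _ hx hy =>
      refine ⟨mul_mem hx.1 hy.1, ?_⟩
      rw [Derivation.leibniz, smul_eq_mul, smul_eq_mul]
      exact add_mem (mul_mem hx.1 hy.2) (mul_mem hy.1 hx.2)
  exact h1.2

end

theorem pf_EDC : T_EDC := by
  intro k L _ _ _ _ D u y hu htr hex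
  classical
  -- a relation of minimal degree
  obtain ⟨Q, ⟨hQ, hQy⟩, hmin⟩ : ∃ Q : MvPolynomial (Fin 3) k, (Q ≠ 0 ∧ evD D u Q y = 0) ∧
      ∀ P : MvPolynomial (Fin 3) k, P ≠ 0 → evD D u P y = 0 → Q.totalDegree ≤ P.totalDegree := by
    have hne : ∃ n, ∃ Q : MvPolynomial (Fin 3) k, (Q ≠ 0 ∧ evD D u Q y = 0) ∧
        Q.totalDegree = n := by
      obtain ⟨Q, hQ⟩ := hex
      exact ⟨_, Q, hQ, rfl⟩
    obtain ⟨Q, hQ, hn⟩ := Nat.find_spec hne
    refine ⟨Q, hQ, fun P hP hPy => ?_⟩
    rw [hn]
    exact Nat.find_min' hne ⟨P, ⟨hP, hPy⟩, rfl⟩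
  have hval : ∀ i, pderiv i Q ≠ 0 → evD D u (pderiv i Q) y ≠ 0 := by
    intro i hi h
    exact absurd (hmin _ hi h) (not_le.2 (deg_pderiv hi))
  have hchain : evD D u (pderiv 0 Q) y * u + evD D u (pderiv 1 Q) y * D y +
      evD D u (pderiv 2 Q) y * D (D y) = 0 := by
    have h := chain D ![u, y, D y] Q
    have h0 : aeval ![u, y, D y] Q = 0 := hQy
    rw [h0, map_zero, Fin.sum_univ_three] at h
    have h1 : D (![u, y, D y] 0) = u := hu
    have h2 : D (![u, y, D y] 1) = D y := rfl
    have h3 : D (![u, y, D y] 2) = D (D y) := rfl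
    rw [h1, h2, h3] at h
    exact h.symm
  have huE : u ∈ EE D u y := IntermediateField.subset_adjoin k _ (by simp)
  have hyE : y ∈ EE D u y := IntermediateField.subset_adjoin k _ (by simp)
  have hDE : D y ∈ EE D u y := IntermediateField.subset_adjoin k _ (by simp)
  have hevE : ∀ P : MvPolynomial (Fin 3) k, evD D u P y ∈ EE D u y := by
    intro P
    refine aeval_mem _ _ P fun m _ i _ => ?_
    fin_cases i
    · exact huE
    · exact hyE
    · exact hDE
  have hfin : D (D y) ∈ EE D u y → ∀ g ∈ EE D u y, D g ∈ EE D u y := by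
    intro hDD
    refine closed D {u, y, D y} (EE D u y) le_rfl ?_
    intro x hx
    rcases hx with rfl | rfl | rfl
    · rw [hu]
      exact huE
    · exact hDE
    · exact hDD
  by_cases h2 : pderiv 2 Q = 0
  · have h1 : pderiv 1 Q ≠ 0 := by
      intro h1
      -- `Q` is a polynomial in `u`
      have hv : (Q.vars : Set (Fin 3)) ⊆ Set.range fun _ : Unit => (0 : Fin 3) := by
        intro i hi
        obtain ⟨m, hm, hmi⟩ := (mem_vars_iff_mem_support i).1 hi
        have hmi' : m i ≠ 0 := Finsupp.mem_support_iff.1 hmi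
        refine ⟨(), ?_⟩
        fin_cases i
        · rfl
        · exact absurd (supp_of_pderiv_zero h1 m hm) hmi'
        · exact absurd (supp_of_pderiv_zero h2 m hm) hmi'
      obtain ⟨q, hq⟩ := exists_rename_eq_of_vars_subset_range Q (fun _ : Unit => (0 : Fin 3))
        (fun _ _ _ => rfl) hv
      have hal : AlgebraicIndependent k fun _ : Unit => u :=
        algebraicIndependent_unique_type_iff.2 htr
      have hq0 : aeval (fun _ : Unit => u) q = 0 := by
        have h := hQy
        unfold evD at h
        rw [← hq, aeval_rename] at h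
        exact h
      have : q = 0 := (injective_iff_map_eq_zero _).1 hal q hq0
      rw [this, map_zero] at hq
      exact hQ hq.symm
    refine ⟨Q, hQ, hQy, Or.inl (hval 1 h1), hfin ?_⟩
    -- `D y` is a rational function of `u` and `y`
    set E0 := IntermediateField.adjoin k ({u, y} : Set L) with hE0
    have hu0 : u ∈ E0 := IntermediateField.subset_adjoin k _ (by simp)
    have hy0 : y ∈ E0 := IntermediateField.subset_adjoin k _ (by simp)
    have hev0 : ∀ i, evD D u (pderiv i Q) y ∈ E0 := by
      intro i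
      refine aeval_mem _ _ _ fun m hm j hj => ?_
      have h3 := supp_of_pderiv_zero h2 _ (supp_pderiv hm)
      fin_cases j
      · exact hu0
      · exact hy0
      · refine absurd ?_ hj
        rw [Finsupp.add_apply] at h3
        exact (Nat.add_eq_zero_iff.1 h3).1
    have hDy0 : D y ∈ E0 := by
      have h20 : evD D u (pderiv 2 Q) y = 0 := by
        rw [h2]
        exact map_zero _
      rw [h20, zero_mul, add_zero] at hchain
      have h4 : D y = -(evD D u (pderiv 0 Q) y * u) / evD D u (pderiv 1 Q) y := by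
        rw [eq_div_iff (hval 1 h1)]
        linear_combination hchain
      rw [h4]
      exact div_mem (neg_mem (mul_mem (hev0 0) hu0)) (hev0 1)
    have hcl := closed D {u, y} E0 le_rfl (by
      intro x hx
      rcases hx with rfl | rfl
      · rw [hu]
        exact hu0
      · exact hDy0)
    have hle : E0 ≤ EE D u y := by
      rw [hE0, IntermediateField.adjoin_le_iff]
      intro x hx
      rcases hx with rfl | rfl
      · exact huE
      · exact hyE
    exact hle (hcl _ hDy0)
  · refine ⟨Q, hQ, hQy, Or.inr (hval 2 h2), hfin ?_⟩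
    have h4 : D (D y) = -(evD D u (pderiv 0 Q) y * u + evD D u (pderiv 1 Q) y * D y) /
        evD D u (pderiv 2 Q) y := by
      rw [eq_div_iff (hval 2 h2)]
      linear_combination hchain
    rw [h4]
    exact div_mem (neg_mem (add_mem (mul_mem (hevE _) huE) (mul_mem (hevE _) hDE))) (hevE _)

end Pool.Agent.H85.OD
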